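import Mathlib
import Pool.Agent.U707.LI.StmP

/-!
# Project LI, package EIG: common eigenvectors of commutative algebras of endomorphisms
-/

set_option autoImplicit false

namespace Pool.Agent.U591.LIP

open Module

/-- Let `M` be a faithful module over a finite dimensional commutative algebra `R` over the field `k`, finite
dimensional over `k`. For every character of `R` there is a common eigenvector. -/
theorem exists_eigen (k R M : Type) [Field k] [CommRing R] [Algebra k R] [AddCommGroup M]
    [Module k M] [Module R M] [IsScalarTower k R M] [FiniteDimensional k R] [FiniteDimensional k M]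
    (hann : Module.annihilator R M = ⊥) (φ : R →ₐ[k] k) :
    ∃ x : M, x ≠ 0 ∧ ∀ a : R, a • x = φ a • x := by
  have hart : IsArtinianRing R := IsArtinianRing.of_finite k R
  have hfin : Module.Finite R M := Module.Finite.of_restrictScalars_finite k R M
  have hsurj : Function.Surjective φ := fun c => ⟨algebraMap k R c, φ.commutes c⟩
  have hmax : (RingHom.ker φ).IsMaximal := RingHom.ker_isMaximal_of_surjective φ hsurj
  have hp : (RingHom.ker φ).IsPrime := hmax.isPrime
  have hmin : RingHom.ker φ ∈ (Module.annihilator R M).minimalPrimes := by
    rw [hann]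
    exact IsArtinianRing.mem_minimalPrimes bot_le
  have hass := Module.associatedPrimes.minimalPrimes_annihilator_subset_associatedPrimes R M hmin
  rw [AssociatedPrimes.mem_iff, isAssociatedPrime_iff] at hass
  obtain ⟨-, x, hx⟩ := hass
  refine ⟨x, ?_, fun a => ?_⟩
  · rintro rfl
    apply hp.ne_top
    rw [hx, Ideal.eq_top_iff_one, Submodule.mem_colon_singleton, smul_zero]
    exact Submodule.zero_mem _
  · have h1 : a - algebraMap k R (φ a) ∈ RingHom.ker φ := by
      rw [RingHom.mem_ker, map_sub, AlgHom.commutes]
      exact sub_self _
    rw [hx, Submodule.mem_colon_singleton, Submodule.mem_bot, sub_smul, algebraMap_smul, sub_eq_zero] at h1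
    exact h1

theorem t_EIG : Pool.Agent.U707.LI.S_EIG := by
  intro k M _ _ _ _ A hA φ
  let _ : CommRing A := { (inferInstance : Ring A) with
    mul_comm := fun a b => Subtype.ext (hA a a.2 b b.2) }
  have hann : Module.annihilator A M = ⊥ := by
    rw [eq_bot_iff]
    intro a ha
    rw [Module.mem_annihilator] at ha
    have h1 : (a : Module.End k M) = 0 := LinearMap.ext fun x => ha x
    exact Subtype.ext h1
  obtain ⟨x, hx, h⟩ := exists_eigen k A M hann φ
  exact ⟨x, hx, fun a => h a⟩

end Pool.Agent.U591.LIP
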